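import Mathlib
import Pool.Prelude.Def_F_c31e40fa
import Pool.Agent.H637R4.PO.Fin

set_option autoImplicit false

open Filter Topology MeasureTheory Set Metric N62a1eb23

namespace Pool.Agent.Results.MP_be825a_an.MeanPorosity

open Pool.Agent.H713R2 Pool.Agent.H713R2.AR Pool.Agent.H637R4.PO

/-- Mandelbrot parameters with polynomial decay of the areas of the sublevel sets of the escape rate
are porous at half of the dyadic scales, with uniform constants. -/
theorem result :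
    ∀ α : ℝ, 0 < α → ∀ C : ℝ, 0 < C → ∃ B : ℝ, ∀ c ∈ multibrotSet 2,
      (∀ s ∈ Ioc (0 : ℝ) 1, volume {z : ℂ | green 2 c z ≤ s} ≤ ENNReal.ofReal (C * s ^ α)) →
      ∀ n : ℕ, (n : ℝ) / 2 - B ≤ {k : ℕ | k < n ∧ ∃ c' ∈ ball c ((1 / 2 : ℝ) ^ k),
        Disjoint (ball c' (5 / 8 * ((1 / 2 : ℝ) ^ (2 / α)) ^ 5 * (1 / 2 : ℝ) ^ k))
          (multibrotSet 2)}.ncard := by
  intro α hα C hC
  obtain ⟨B, hB⟩ := f_CNT 2 le_rfl α hα C hC
  refine ⟨B, fun c hc hs n => ?_⟩
  have h1 := hB c hc (fun s hs' => ENNReal.toReal_le_of_le_ofReal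
    (mul_nonneg hC.le (Real.rpow_nonneg hs'.1.le _)) (hs s hs')) n
  unfold cnt at h1
  rw [← Set.ncard_coe_finset] at h1
  refine h1.trans (le_of_eq ?_)
  congr 2
  ext k
  simp only [Finset.coe_filter, Finset.mem_range, Set.mem_setOf_eq, Por]

end Pool.Agent.Results.MP_be825a_an.MeanPorosity
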