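import Mathlib
import Pool.Prelude.Def_F_c31e40fa
import Pool.Agent.H637R4.PO.Fin

set_option autoImplicit false

open Filter Topology MeasureTheory Set Metric N62a1eb23

namespace Pool.Agent.Results.MP_be825a_an.PorousParameters

open Pool.Agent.H713R2 Pool.Agent.H713R2.AR Pool.Agent.H637R4.PO

/-- Mandelbrot parameters at which the areas of the sublevel sets of the escape rate decay
polynomially along some sequence are points of porosity of the Mandelbrot set. -/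
theorem result :
    ∀ c ∈ multibrotSet 2, ∀ α : ℝ, 0 < α →
      (∀ δ : ℝ, 0 < δ → ∀ s₁ : ℝ, 0 < s₁ → ∃ s ∈ Ioo 0 s₁,
        volume {z : ℂ | green 2 c z ≤ s} ≤ ENNReal.ofReal (δ * s ^ α)) →
      ∀ ρ₁ : ℝ, 0 < ρ₁ → ∃ ρ ∈ Ioo 0 ρ₁, ∃ c' ∈ ball c ρ,
        Disjoint (ball c' (5 / 8 * ((1 / 2 : ℝ) ^ (1 / α)) ^ 5 * ρ)) (multibrotSet 2) := by
  intro c hc α hα h ρ₁ hρ₁
  refine f_POR 2 le_rfl c hc α hα ?_ ρ₁ hρ₁
  intro δ hδ s₁ hs₁
  obtain ⟨s, hs, h1⟩ := h δ hδ s₁ hs₁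
  exact ⟨s, hs, ENNReal.toReal_le_of_le_ofReal
    (mul_nonneg hδ.le (Real.rpow_nonneg hs.1.le _)) h1⟩

end Pool.Agent.Results.MP_be825a_an.PorousParameters
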