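import Mathlib
import Pool.Prelude.Def_F_c31e40fa
import Pool.Agent.H637R4.PO.Fin2

set_option autoImplicit false

open Filter Topology MeasureTheory Set Metric N62a1eb23

namespace Pool.Agent.Results.MP_be825a_an.SlowDecay

open Pool.Agent.H713R2 Pool.Agent.H713R2.AR Pool.Agent.H637R4.PO

/-- At almost every parameter of the Mandelbrot set the areas of the sublevel sets of the escape
rate decay slowly. -/
theorem result :
    volume {c : ℂ | c ∈ mandelbrotSet ∧ ∃ β : ℝ, 1 / 2 < β ∧
      ∃ᶠ s in 𝓝[>] (0 : ℝ), volume {z : ℂ | green 2 c z ≤ s} <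
        ENNReal.ofReal (Real.exp (-(Real.log (1 / s)) ^ β))} = 0 :=
  f_null 2 le_rfl

end Pool.Agent.Results.MP_be825a_an.SlowDecay
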